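import Pool.Agent.helper60.XP.SpecN

/-!
# Project xp: (MP_af9036_an), part N, module NI1: case I
-/

set_option autoImplicit false

open Complex Metric Set Filter Topology MeasureTheory
open V3S (UF)
open XP
open XPX (nu)

noncomputable section

namespace XPN

theorem NI1 (hNA1 : NA1_stmt) (hNCA : NCA_stmt) (hNLM : NLM_stmt) (hNIA : NIA_stmt)
    (hLPI : XPL.LPI_stmt) (hNORM : V3.NORM_stmt) : NI1_stmt := by
  intro n C M D hD hnu hs
  obtain ⟨A, -, hgood⟩ := hD.good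
  obtain ⟨hPin, -, hfar, hclosed, -, -, -⟩ := hLPI n C D hD
  have hconf := hNCA n C M D hD hnu
  obtain ⟨B, gg, hsep, -, hBd, hBconv, hgC, hlab, hpp, hB2⟩ :=
    hNORM (hyperfilter ℕ) (fun m => ZMod (D m).k) (fun m => (D m).p)
      (fun m l => (D m).sg * (D m).g l) (1 / 2) (max C (max M 1)) (fun _ => 1 / 2)
      (fun _ => -1 / 2) hconf
  rw [← hPin] at hsep hBd hBconv hgC hpp hB2
  have hO : IsOpen (Pin D)ᶜ := hclosed.isOpen_compl
  have hBF : (fun m => V3.BF (D m).p (fun l => (D m).sg * (D m).g l))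
      = fun m x => ((D m).s : ℂ) * (D m).Bb x := by
    funext m x
    rw [hs m, (hNA1 n C (A m) (D m) (hgood m)).1 x]
    push_cast
    rw [one_mul]
  rw [hBF] at hBconv
  have hs' : ∀ m, 0 < (D m).s ∧ (D m).s ≤ 1 := fun m => by
    rw [hs m]
    exact ⟨one_pos, le_refl 1⟩
  obtain ⟨hBin, hconv⟩ := hNLM n C D B hD hs' hBconv
  have hBin' : ∀ x ∈ (Pin D)ᶜ, Bin D x = B x := fun x hx => hBin x hx
  have hdiff : DifferentiableOn ℂ (Bin D) (Pin D)ᶜ := hBd.congr hBin'
  have hGG : XPG.GG D gg := by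
    refine ⟨⟨_, hgC⟩, ?_, ?_, ?_⟩
    · intro p hp
      obtain ⟨h, hh, hev⟩ := hpp p hp
      refine ⟨h, hh, ?_⟩
      have h2 : ∀ᶠ x in 𝓝[≠] p, x ∈ (Pin D)ᶜ := by
        have h3 : ball p (1 / 2) ∈ 𝓝 p := ball_mem_nhds p (by norm_num)
        filter_upwards [mem_nhdsWithin_of_mem_nhds h3, self_mem_nhdsWithin] with x hx hxp hxP
        have h4 := hsep x hxP p hp hxp
        rw [mem_ball, dist_eq_norm] at hx
        exact absurd h4 (not_le.2 hx)
      filter_upwards [hev, h2] with x hx hxO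
      rw [hBin' x hxO]
      exact hx
    · intro p _ l hl
      exact hlab l p hl
    · intro x hx
      rw [← hB2 x hx]
      have h5 : Bin D =ᶠ[𝓝 x] B := by
        filter_upwards [hO.mem_nhds hx] with y hy
        exact hBin' y hy
      exact Filter.EventuallyEq.iteratedDeriv_eq 2 h5
  obtain ⟨hacc, hzero⟩ := hNIA n C D gg hD hdiff hGG
  exact ⟨⟨hdiff, hconv, hacc, hzero⟩, gg, ⟨hs, hGG⟩⟩

end XPN
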